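import Pool.Agent.H77.LocLat2

set_option autoImplicit false

namespace Pool.Agent.Results.MP_cac0a5_al.IntoGroups

open Pool.Agent.H77.LocLat

/-- The lattice of local clones embeds into the lattice of closed permutation groups. -/
theorem result (X : Type) [Countable X] [Infinite X] :
    ∃ Φ : ClLoc X → GrLoc X, IsLatEmb Φ :=
  q2 X

end Pool.Agent.Results.MP_cac0a5_al.IntoGroups
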