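import Pool.Agent.H77.LocLat1

set_option autoImplicit false

namespace Pool.Agent.Results.MP_cac0a5_al.IntoMonoids

open Pool.Agent.H77.LocLat

/-- The lattice of local clones embeds into the lattice of local monoids. -/
theorem result (X : Type) [Countable X] [Infinite X] :
    ∃ Φ : ClLoc X → MonLoc X, IsLatEmb Φ :=
  q1 X

end Pool.Agent.Results.MP_cac0a5_al.IntoMonoids
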